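import Pool.Agent.Helper2.BI.St

set_option autoImplicit false

/-! # Project BI, module CP: primes in `(2P, 8P]` -/

namespace Pool.Agent.Helper57.BI

open Finset Filter
open Pool.Agent.Helper2.BI

theorem theta_diff (P : ℕ) : Chebyshev.theta ((8 * P : ℕ) : ℝ) - Chebyshev.theta ((2 * P : ℕ) : ℝ)
    = ∑ p ∈ (Ioc (2 * P) (8 * P)).filter Nat.Prime, Real.log p := by
  have h : (Ioc 0 (8 * P)).filter Nat.Prime = ((Ioc 0 (2 * P)).filter Nat.Prime) ∪
      ((Ioc (2 * P) (8 * P)).filter Nat.Prime) := by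
    ext p
    simp only [mem_filter, mem_Ioc, mem_union]
    constructor
    · rintro ⟨⟨h1, h2⟩, h3⟩
      rcases le_or_gt p (2 * P) with h | h
      · exact Or.inl ⟨⟨h1, h⟩, h3⟩
      · exact Or.inr ⟨⟨h, h2⟩, h3⟩
    · rintro (⟨⟨h1, h2⟩, h3⟩ | ⟨⟨h1, h2⟩, h3⟩)
      · exact ⟨⟨h1, by omega⟩, h3⟩
      · exact ⟨⟨by omega, h2⟩, h3⟩
  have hd : Disjoint ((Ioc 0 (2 * P)).filter Nat.Prime) ((Ioc (2 * P) (8 * P)).filter Nat.Prime) := by
    rw [Finset.disjoint_left]
    intro p hp hq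
    simp only [mem_filter, mem_Ioc] at hp hq
    omega
  unfold Chebyshev.theta
  rw [Nat.floor_natCast, Nat.floor_natCast, h, Finset.sum_union hd]
  ring

theorem hCP : CP := by
  refine ⟨10 ^ 8, by norm_num, fun P hP => ?_⟩
  have hP' : (10 : ℝ) ^ 8 ≤ P := by exact_mod_cast hP
  have hP0 : (0 : ℝ) < P := by linarith [show (0 : ℝ) < 10 ^ 8 by norm_num]
  set n : ℕ := 8 * P with hn
  have hnR : (n : ℝ) = 8 * P := by rw [hn]; push_cast; ring
  have h1 := Chebyshev.theta_ge n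
  have h2 : Chebyshev.theta ((2 * P : ℕ) : ℝ) ≤ Real.log 4 * ((2 * P : ℕ) : ℝ) :=
    Chebyshev.theta_le_log4_mul_x (by positivity)
  have h3 := theta_diff P
  rw [← hn] at h3
  -- the fourth root
  set y : ℝ := 8 * P + 1 with hy
  have hy1 : (1 : ℝ) ≤ y := by rw [hy]; linarith
  have hy0 : (0 : ℝ) ≤ y := by linarith
  set r : ℝ := Real.sqrt y with hr
  have hr0 : 0 ≤ r := Real.sqrt_nonneg _
  have hrr : r ^ 2 = y := Real.sq_sqrt hy0
  set s : ℝ := Real.sqrt r with hs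
  have hs0 : 0 ≤ s := Real.sqrt_nonneg _
  have hss : s ^ 2 = r := Real.sq_sqrt hr0
  have hs4 : s ^ 4 = y := by rw [← hrr, ← hss]; ring
  have hs150 : 150 ≤ s := by
    by_contra hlt
    push Not at hlt
    have : s ^ 4 < 150 ^ 4 := pow_lt_pow_left₀ hlt hs0 (by norm_num)
    rw [hs4, hy] at this
    norm_num at this
    linarith
  have hspos : 0 < s := by linarith
  have hlogy : Real.log y ≤ 4 * s := by
    rw [← hs4, Real.log_pow]
    have := Real.log_le_sub_one_of_pos hspos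
    push_cast
    linarith
  have hlogn : Real.log n ≤ 4 * s := by
    refine le_trans (Real.log_le_log ?_ ?_) hlogy
    · rw [hnR]; positivity
    · rw [hnR, hy]; linarith
  have hlogn0 : 0 ≤ Real.log n := Real.log_natCast_nonneg n
  have hsqn : Real.sqrt n ≤ s ^ 2 := by
    rw [hss, hr]
    apply Real.sqrt_le_sqrt
    rw [hnR, hy]; linarith
  have hprod : 2 * Real.sqrt n * Real.log n ≤ 8 * s ^ 3 := by
    have : Real.sqrt n * Real.log n ≤ s ^ 2 * (4 * s) :=
      mul_le_mul hsqn hlogn hlogn0 (by positivity)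
    nlinarith
  have hlog2 : (0.69314 : ℝ) < Real.log 2 := by linarith [Real.log_two_gt_d9]
  have hlog4 : Real.log 4 = 2 * Real.log 2 := by
    rw [show (4 : ℝ) = 2 ^ 2 by norm_num, Real.log_pow]; norm_num
  have hlogn1 : Real.log (n + 1) ≤ 4 * s := by
    rw [hnR]; exact hlogy
  -- lower bound of the sum
  have hsum : 2 * (P : ℝ) ≤ ∑ p ∈ (Ioc (2 * P) (8 * P)).filter Nat.Prime, Real.log p := by
    rw [← h3]
    have hc : ((2 * P : ℕ) : ℝ) = 2 * (P : ℝ) := by push_cast; ring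
    have h2' : Chebyshev.theta ((2 * P : ℕ) : ℝ) ≤ 2 * Real.log 2 * (2 * (P : ℝ)) := by
      refine h2.trans (le_of_eq ?_)
      rw [hlog4, hc]
    have hP4 : (P : ℝ) = (s ^ 4 - 1) / 8 := by rw [hs4, hy]; ring
    have hkey : 4 * s + 8 * s ^ 3 ≤ 0.77 * P := by
      rw [hP4]
      have e1 : 4 * s ≤ s ^ 3 := by nlinarith [mul_nonneg hs0 hs0, mul_self_nonneg (s - 2)]
      have e2 : 150 * s ^ 3 ≤ s ^ 4 := by
        have : 0 ≤ s ^ 3 := by positivity
        nlinarith
      have e3 : 1 ≤ s ^ 3 := one_le_pow₀ (by linarith)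
      nlinarith
    have : (8 * (P : ℝ)) * Real.log 2 - 4 * s - 8 * s ^ 3 ≤ Chebyshev.theta (n : ℝ) := by
      rw [← hnR]
      linarith
    have hl : 0.69314 * (P : ℝ) ≤ Real.log 2 * P := by
      apply mul_le_mul_of_nonneg_right hlog2.le hP0.le
    nlinarith
  have hup : ∑ p ∈ (Ioc (2 * P) (8 * P)).filter Nat.Prime, Real.log p ≤
      ((Ioc (2 * P) (8 * P)).filter Nat.Prime).card * (2 * Real.log P) := by
    rw [← nsmul_eq_mul]
    refine Finset.sum_le_card_nsmul _ _ _ (fun p hp => ?_)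
    simp only [mem_filter, mem_Ioc] at hp
    have hp0 : (0 : ℝ) < p := by exact_mod_cast hp.2.pos
    have : Real.log p ≤ Real.log ((P : ℝ) ^ 2) := by
      apply Real.log_le_log hp0
      have h8 : (p : ℝ) ≤ 8 * P := by exact_mod_cast hp.1.2
      nlinarith
    rwa [Real.log_pow, Nat.cast_ofNat] at this
  have hlogP : 0 < Real.log P := Real.log_pos (by linarith)
  rw [div_le_iff₀ hlogP]
  linarith

end Pool.Agent.Helper57.BI
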